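import Pool.Agent.R128.Multifuncoid

set_option autoImplicit false

namespace Pool.Agent.Results.MP_2da57a_co.NotAtomic

open Pool.Agent.R128.Multifuncoid

/-- For all infinite sets `U` and `n` the poset of completary multifuncoids of the form `(P U)^n` is
not atomic: there is an element `f`, different from the least element, with no atom below it. -/
theorem result (U n : Type) [Infinite U] [Infinite n] :
    ∃ f : CM U n, f ≠ ⊥ ∧ ∀ a : CM U n, IsAtom a → ¬ a ≤ f :=
  ⟨bigCM (Infinite.natEmbedding n) (Infinite.natEmbedding U), bigCM_ne_bot _ _,
    fun a ha => no_atom_le _ _ a ha⟩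

end Pool.Agent.Results.MP_2da57a_co.NotAtomic
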