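import Pool.Agent.R128.Multifuncoid

set_option autoImplicit false

namespace Pool.Agent.Results.MP_2da57a_co.NotAtomistic

open Pool.Agent.R128.Multifuncoid

/-- For all infinite sets `U` and `n` the poset of completary multifuncoids of the form `(P U)^n` is
not atomistic: there is an element `f` that is not the least upper bound of the set of atoms
below it. -/
theorem result (U n : Type) [Infinite U] [Infinite n] :
    ∃ f : CM U n, ¬ IsLUB {a : CM U n | IsAtom a ∧ a ≤ f} f := by
  refine ⟨bigCM (Infinite.natEmbedding n) (Infinite.natEmbedding U), fun h => ?_⟩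
  have h1 : bigCM (Infinite.natEmbedding n) (Infinite.natEmbedding U) ≤ ⊥ :=
    h.2 fun a ha => absurd ha.2 (no_atom_le _ _ a ha.1)
  exact bigCM_ne_bot _ _ (le_bot_iff.1 h1)

end Pool.Agent.Results.MP_2da57a_co.NotAtomistic
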